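import Pool.Agent.Y203.Flute.Crit

set_option autoImplicit false

open Filter Topology

namespace Pool.Agent.Results.MP_b90f02_an.GapsBoundedBelow

open Pool.Agent.H223R3.Flute Pool.Agent.Y203.Flute

/-- **Half-twists never make a flute surface parabolic when the gaps of the lengths are bounded
below.** -/
theorem result :
    -- (1) A criterion for each sequence of twists.  `top t k` is the end (of the two ends of the
    -- closed curves fixed by the symmetry) which is on top in `P (k + 1)`: it changes with every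
    -- half-twist.  `gain ℓ t k` is the sum of `(ℓ (j + 1) - ℓ j) / 2` over the steps `j < k` with
    -- the same end on top as at step `k`.
    (∀ ℓ t : ℕ → ℝ, (∀ n, 0 < ℓ n) → Monotone ℓ → (∀ n, t n = 0 ∨ t n = 1 / 2) →
      Summable (fun k => Real.exp (-gain ℓ t k)) → ¬ IsParabolic ℓ t) ∧
    -- (2) Gaps bounded below (from some step on): no choice of twists in `{0, 1/2}` is parabolic
    (∀ ℓ : ℕ → ℝ, (∀ n, 0 < ℓ n) → Monotone ℓ →
      (∃ c : ℝ, 0 < c ∧ ∀ᶠ n in atTop, c ≤ ℓ (n + 1) - ℓ n) →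
      ∀ t : ℕ → ℝ, (∀ n, t n = 0 ∨ t n = 1 / 2) → ¬ IsParabolic ℓ t) ∧
    -- (3) with an explicit lower bound for the Dirichlet integral of every test function equal to
    -- `1` on the compact set of the points of `P 0`, `P 1` with second Fermi coordinate at most
    -- `ℓ 0 / 2`; the bound does not depend on the twists
    (∀ (ℓ : ℕ → ℝ) (c : ℝ) (m : ℕ), (∀ n, 0 < ℓ n) → Monotone ℓ → 0 < c →
      (∀ n, m ≤ n → c ≤ ℓ (n + 1) - ℓ n) →
      ∀ t : ℕ → ℝ, (∀ n, t n = 0 ∨ t n = 1 / 2) → ∀ U : TestFun ℓ t,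
        (∀ n b p, n ≤ 1 → p ∈ piece ℓ n → p.2 ≤ ℓ 0 / 2 → U.u n b p = 1) →
        ENNReal.ofReal
          (ℓ 0 * (1 - Real.exp (-ℓ 0)) / (8 * (m + 2 / (1 - Real.exp (-(c / 2)))))) ≤ U.energy) ∧
    -- (4) in particular for every arithmetic progression
    (∀ a c : ℝ, 0 < a → 0 < c → ∀ t : ℕ → ℝ, (∀ n, t n = 0 ∨ t n = 1 / 2) →
      ¬ IsParabolic (fun n => a + c * n) t) ∧
    -- (5) Q1 has a negative answer
    ¬ ∀ ℓ : ℕ → ℝ, (∀ n, 0 < ℓ n) → Monotone ℓ →
      ∃ t : ℕ → ℝ, (∀ n, t n = 0 ∨ t n = 1 / 2) ∧ IsParabolic ℓ t := by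
  have h4 : ∀ a c : ℝ, 0 < a → 0 < c → ∀ t : ℕ → ℝ, (∀ n, t n = 0 ∨ t n = 1 / 2) →
      ¬ IsParabolic (fun n => a + c * n) t := by
    intro a c ha hc t ht
    refine not_isParabolic_of_gaps (fun n => by positivity) ?_ hc ?_ ht
    · intro m n hmn
      have h1 : (m : ℝ) ≤ n := by exact_mod_cast hmn
      show a + c * (m : ℝ) ≤ a + c * (n : ℝ)
      have := mul_le_mul_of_nonneg_left h1 hc.le
      linarith
    · filter_upwards with n
      push_cast
      linarith
  refine ⟨fun ℓ t hpos hmono ht hs => not_isParabolic_of_gain hpos hmono ht hs, ?_, ?_, h4, ?_⟩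
  · rintro ℓ hpos hmono ⟨c, hc0, hc⟩ t ht
    exact not_isParabolic_of_gaps hpos hmono hc0 hc ht
  · intro ℓ c m hpos hmono hc0 hc t ht U hone
    exact energy_ge_of_gaps hpos hmono hc0 hc ht U hone
  · intro h
    obtain ⟨t, ht, hP⟩ := h (fun n => 1 + 1 * (n : ℝ)) (fun n => by positivity) (by
      intro m n hmn
      have h1 : (m : ℝ) ≤ n := by exact_mod_cast hmn
      show 1 + 1 * (m : ℝ) ≤ 1 + 1 * (n : ℝ)
      linarith)
    exact h4 1 1 one_pos one_pos t ht hP

end Pool.Agent.Results.MP_b90f02_an.GapsBoundedBelow
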